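import Pool.Agent.Helper51.GP.S
import Pool.Agent.Helper51.GP.F0

/-!
# GP-R: the rate in the direction of a vertex
-/

set_option autoImplicit false

namespace Pool.Agent.Helper47.GP

open MeasureTheory ProbabilityTheory Filter Pool.Agent.Helper79.GR Pool.Agent.Helper79.GQ
open Pool.Agent.Helper51.NP Pool.Agent.Helper51.GP

/-- a large term in a sum with a small tail -/
theorem exists_term {ι : Type*} (F G : ι → ℝ) {C A S : ℝ} (hC : 0 < C) (hA : 0 < A) (hS : 0 < S)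
    (hF : ∀ q, 0 ≤ F q) (hG : ∀ q, 0 ≤ G q) (hFG : ∀ q, F q ≤ A * G q ^ 2)
    (h1 : 1 ≤ ENNReal.ofReal C * ∑' q, ENNReal.ofReal (F q))
    (h2 : ∑' q, ENNReal.ofReal (G q) ≤ ENNReal.ofReal S) :
    ∃ q, 1 / (4 * C ^ 2 * A * S ^ 2) ≤ F q := by
  by_contra hcon
  push Not at hcon
  have h3 : ∀ q, F q ≤ 1 / (2 * C * S) * G q := by
    intro q
    rw [← pow_le_pow_iff_left₀ (hF q) (mul_nonneg (by positivity) (hG q)) two_ne_zero]
    calc F q ^ 2 = F q * F q := sq _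
      _ ≤ (1 / (4 * C ^ 2 * A * S ^ 2)) * (A * G q ^ 2) :=
        mul_le_mul (hcon q).le (hFG q) (hF q) (by positivity)
      _ = (1 / (2 * C * S) * G q) ^ 2 := by
        field_simp
        ring
  have h4 : ∑' q, ENNReal.ofReal (F q) ≤ ENNReal.ofReal (1 / (2 * C * S)) * ENNReal.ofReal S := by
    calc ∑' q, ENNReal.ofReal (F q)
        ≤ ∑' q, ENNReal.ofReal (1 / (2 * C * S)) * ENNReal.ofReal (G q) := by
          refine ENNReal.tsum_le_tsum fun q => ?_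
          rw [← ENNReal.ofReal_mul (by positivity)]
          exact ENNReal.ofReal_le_ofReal (h3 q)
      _ = ENNReal.ofReal (1 / (2 * C * S)) * ∑' q, ENNReal.ofReal (G q) := ENNReal.tsum_mul_left
      _ ≤ _ := mul_le_mul_right h2 _
  have h5 : ENNReal.ofReal C * ∑' q, ENNReal.ofReal (F q) ≤ ENNReal.ofReal (1 / 2) := by
    calc ENNReal.ofReal C * ∑' q, ENNReal.ofReal (F q)
        ≤ ENNReal.ofReal C * (ENNReal.ofReal (1 / (2 * C * S)) * ENNReal.ofReal S) :=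
          mul_le_mul_right h4 _
      _ = ENNReal.ofReal (1 / 2) := by
        rw [← ENNReal.ofReal_mul (by positivity), ← ENNReal.ofReal_mul hC.le]
        congr 1
        field_simp
  have h6 := h1.trans h5
  rw [← ENNReal.ofReal_one, ENNReal.ofReal_le_ofReal_iff (by norm_num)] at h6
  norm_num at h6

variable {Ω : Type*} [MeasurableSpace Ω] {P : Measure Ω} {d : ℕ}

/-- the geometry: transversal decay of `Z e^(l h)` -/
theorem decay {Y : Edge d → Ω → ℝ} {ν : Measure ℝ} {δ b l D s t : ℝ} {u : F d → ℝ} {v : F d}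
    {h : F d →L[ℝ] ℝ} (hE : Env P Y ν δ b) (hl : 0 < l) (hV : Vtx u v h s)
    (hnl : ∀ x, u x ≤ nl P Y l x + D * l * nr x) (hD0 : 0 ≤ D) (hD : D * l ≤ s / 2)
    (ht : l ^ 2 * t ≤ 1) (y : V d) (hy : |h (rv y)| ≤ 2 * t) :
    Z P Y l 0 y * Real.exp (l * h (rv y)) ≤
      Real.exp (2 * D * nr v) * Real.exp (-(l * s / 4 * tr v h (rv y))) ^ 2 := by
  have h1 := Z_le_nl hE hl y
  have h2 := hnl (rv y)
  have h3 := hV.gap (rv y)
  have h4 := Pool.Agent.Helper19.PG.nr_le_tr v h (rv y)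
  have h5 : 0 ≤ tr v h (rv y) := Pool.Agent.Helper19.PG.tr_nonneg v h (rv y)
  have hv0 : 0 ≤ nr v := Pool.Agent.Helper79.GQ.nr_nonneg v
  have hDl : 0 ≤ D * l := mul_nonneg hD0 hl.le
  have h6 : D * l * nr (rv y) ≤ D * l * (|h (rv y)| * nr v + tr v h (rv y)) :=
    mul_le_mul_of_nonneg_left h4 hDl
  have h7 : D * l * tr v h (rv y) ≤ s / 2 * tr v h (rv y) := mul_le_mul_of_nonneg_right hD h5
  have h8 : D * l * (|h (rv y)| * nr v) ≤ D * l * (2 * t * nr v) :=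
    mul_le_mul_of_nonneg_left (mul_le_mul_of_nonneg_right hy hv0) hDl
  -- the exponent
  have h9 : h (rv y) - nl P Y l (rv y) ≤ D * l * (2 * t * nr v) - s / 2 * tr v h (rv y) := by
    nlinarith
  have h10 : l * (h (rv y) - nl P Y l (rv y)) ≤
      2 * D * nr v - l * s / 2 * tr v h (rv y) := by
    have h11 := mul_le_mul_of_nonneg_left h9 hl.le
    have h12 : l * (D * l * (2 * t * nr v)) ≤ 2 * D * nr v := by
      have h13 : l * (D * l * (2 * t * nr v)) = (l ^ 2 * t) * (2 * D * nr v) := by ring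
      rw [h13]
      have : 0 ≤ 2 * D * nr v := by positivity
      nlinarith
    nlinarith
  calc Z P Y l 0 y * Real.exp (l * h (rv y))
      ≤ Real.exp (-(l * nl P Y l (rv y))) * Real.exp (l * h (rv y)) :=
        mul_le_mul_of_nonneg_right h1 (Real.exp_pos _).le
    _ = Real.exp (l * (h (rv y) - nl P Y l (rv y))) := by
        rw [← Real.exp_add]
        congr 1
        ring
    _ ≤ Real.exp (2 * D * nr v - l * s / 2 * tr v h (rv y)) := Real.exp_le_exp.2 h10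
    _ = _ := by
        rw [← Real.exp_nat_mul, ← Real.exp_add]
        congr 1
        push_cast
        ring

/-- the side of the cells -/
theorem wd_le {l : ℝ} {b : ℕ} (hl : 0 < l) (hb : 1 ≤ b) (hlb : l * b ≤ 1) :
    1 ≤ wd l b ∧ 1 ≤ l * b * wd l b ∧ l * wd l b ≤ 2 := by
  have hb' : (1 : ℝ) ≤ b := by exact_mod_cast hb
  have hlb0 : 0 < l * b := by positivity
  have h1 : 0 < 1 / (l * b) := one_div_pos.2 hlb0
  have h2 := Nat.le_ceil (1 / (l * b))
  have h3 := Nat.ceil_lt_add_one h1.le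
  have hl1 : l ≤ 1 := by nlinarith
  refine ⟨Nat.ceil_pos.2 h1, ?_, ?_⟩
  · unfold wd
    rw [div_le_iff₀ hlb0] at h2
    linarith
  · unfold wd
    have h4 : l * (⌈1 / (l * b)⌉₊ : ℝ) ≤ l * (1 / (l * b) + 1) :=
      mul_le_mul_of_nonneg_left h3.le hl.le
    have h5 : l * (1 / (l * b) + 1) = 1 / b + l := by
      field_simp
    have h6 : 1 / (b : ℝ) ≤ 1 := by
      rw [div_le_one (by linarith)]
      exact hb'
    linarith

/-- a lattice point near `t v` with a small mean -/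
theorem near_point {u : F d → ℝ} {v : F d} {h : F d →L[ℝ] ℝ} {s : ℝ} (hV : Vtx u v h s)
    (hs1 : s ≤ 1) (a : ℝ) : ∃ M : ℝ, 1 ≤ M ∧
      ∀ (Y : Edge d → Ω → ℝ) (ν : Measure ℝ) (δ : ℝ) (b : ℕ) (D r : ℝ), Env P Y ν δ b →
      Reg P Y a → 1 ≤ b → (∀ x, uu P Y x ≤ u x) → 1 ≤ D → M * b ≤ r → M * D ≤ r →
      (∀ x, u x ≤ nl P Y (1 / r) x + D * (1 / r) * nr x) →
      mm P Y (fl 1 (r ^ 2 • v)) ≤ r ^ 2 + M * (b ^ 4 * D * r) := by
  obtain ⟨C₁, hC₁, hslab⟩ := slab P d ‖h‖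
  obtain ⟨K₁, hK₁, hsum⟩ := Helper51.GP.sum_slab v h hV.hv C₁ (Nat.cast_nonneg C₁)
  have hC₁' : (1 : ℝ) ≤ C₁ := by exact_mod_cast hC₁
  have hs := hV.spos
  have hv0 : 0 ≤ nr v := Pool.Agent.Helper79.GQ.nr_nonneg v
  obtain ⟨M₁, hM₁⟩ : ∃ M₁ : ℝ, M₁ = 2 * nr v + 4 * C₁ * K₁ + 8 * d / s := ⟨_, rfl⟩
  obtain ⟨M₂, hM₂⟩ : ∃ M₂ : ℝ, M₂ = (2 * nr v + M₁) * (2 / s) := ⟨_, rfl⟩
  have hM₁0 : 0 ≤ M₁ := by rw [hM₁]; positivity
  have hM₂0 : 0 ≤ M₂ := by rw [hM₂]; positivity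
  have hh0 : 0 ≤ |hr a| := abs_nonneg _
  have h2s : 0 ≤ 2 / s := by positivity
  refine ⟨1 + 2 / s + 4 * C₁ + 2 * |hr a| * nr v + |hr a| * M₂ + |hr a| + M₁ + d +
    2 * C₁ * nr v + M₂, ?_, ?_⟩
  · have : 0 ≤ 2 / s + 4 * C₁ + 2 * |hr a| * nr v + |hr a| * M₂ + |hr a| + M₁ + d +
      2 * C₁ * nr v + M₂ := by positivity
    linarith
  intro Y ν δ b D r hE hR hb hup hD1 hMb hMD hnl
  obtain ⟨M, hM⟩ : ∃ M : ℝ, M = 1 + 2 / s + 4 * C₁ + 2 * |hr a| * nr v + |hr a| * M₂ + |hr a| +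
    M₁ + d + 2 * C₁ * nr v + M₂ := ⟨_, rfl⟩
  rw [← hM] at hMb hMD ⊢
  have hM1 : 1 + 2 / s + 4 * C₁ ≤ M := by
    have : 0 ≤ 2 * |hr a| * nr v + |hr a| * M₂ + |hr a| + M₁ + d + 2 * C₁ * nr v + M₂ := by
      positivity
    linarith
  have hb' : (1 : ℝ) ≤ b := by exact_mod_cast hb
  have hM0 : 1 ≤ M := by linarith
  -- `r` is large
  have hrM : M ≤ r := by nlinarith
  have hbr : (b : ℝ) ≤ r := by nlinarith
  have hr0 : 0 < r := by linarith
  have hl0 : 0 < 1 / r := one_div_pos.2 hr0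
  obtain ⟨l, hl⟩ : ∃ l : ℝ, l = 1 / r := ⟨_, rfl⟩
  rw [← hl] at hnl hl0
  have hlr : l * r = 1 := by rw [hl]; field_simp
  have hl1 : l ≤ 1 := by
    rw [hl, div_le_one hr0]
    linarith
  have hlb : l * b ≤ 1 := by
    calc l * b ≤ l * r := mul_le_mul_of_nonneg_left hbr hl0.le
      _ = 1 := hlr
  have hDl : D * l ≤ s / 2 := by
    have h1 : 2 / s * D ≤ r := by nlinarith
    have h2 : 2 / s * D * l ≤ 1 := by
      calc 2 / s * D * l ≤ r * l := mul_le_mul_of_nonneg_right h1 hl0.le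
        _ = 1 := by rw [mul_comm, hlr]
    have h3 : D * l = s / 2 * (2 / s * D * l) := by field_simp
    rw [h3]
    nlinarith
  obtain ⟨hw1, hw2, hw3⟩ := wd_le hl0 hb hlb
  obtain ⟨w, hw⟩ : ∃ w : ℕ, w = wd l b := ⟨_, rfl⟩
  rw [← hw] at hw1 hw2 hw3
  have hw1' : (1 : ℝ) ≤ w := by exact_mod_cast hw1
  have hwr : (w : ℝ) ≤ 2 * r := by
    have h1 : r * (l * w) ≤ r * 2 := mul_le_mul_of_nonneg_left hw3 hr0.le
    have h2 : r * (l * w) = w := by rw [← mul_assoc, mul_comm r l, hlr, one_mul]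
    linarith
  have hCw : C₁ * (w : ℝ) ≤ r ^ 2 := by
    have h1 : C₁ * (w : ℝ) ≤ C₁ * (2 * r) := mul_le_mul_of_nonneg_left hwr (by linarith)
    nlinarith
  -- the slab lemma
  have hH : ∀ st : St d, |h (rv (sv st))| ≤ ‖h‖ := by
    intro st
    have h1 := h.le_opNorm (rv (sv st))
    rw [Real.norm_eq_abs] at h1
    have h2 : ‖rv (sv st)‖ ≤ 1 := by
      have h3 := Pool.Agent.Helper79.GQ.norm_le_nr (rv (sv st))
      rwa [Pool.Agent.Helper79.GQ.nr_rv, n1_sv] at h3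
    exact h1.trans (mul_le_of_le_one_right (norm_nonneg _) h2)
  have hsl := hslab Y ν δ b hE hb l h h v hl0 hlb hH hV.hv (r ^ 2) (by rw [← hw]; exact hCw)
  rw [← hw] at hsl
  have hlow : (1 : ENNReal) ≤ ENNReal.ofReal (Real.exp (l * r ^ 2 * (h v - nl P Y l v))) := by
    rw [← ENNReal.ofReal_one]
    refine ENNReal.ofReal_le_ofReal (Real.one_le_exp ?_)
    have h1 := (nl_le_uu hE hl0 v).trans (hup v)
    rw [hV.one] at h1
    rw [hV.hv]
    have : 0 ≤ l * r ^ 2 := by positivity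
    nlinarith
  have hsl1 := hlow.trans hsl
  -- the sum
  have hθ : 0 < l * s / 4 := by positivity
  have hθw : l * s / 4 * w ≤ 1 := by
    have h1 : l * s / 4 * w = (l * w) * s / 4 := by ring
    rw [h1]
    nlinarith [mul_nonneg hl0.le (Nat.cast_nonneg (α := ℝ) w)]
  have hsum1 := hsum w (l * s / 4) (r ^ 2) hw1 hθ hθw
  obtain ⟨S, hS⟩ : ∃ S : ℝ, S = K₁ * (4 * b / s) ^ d := ⟨_, rfl⟩
  have hS0 : 0 < S := by rw [hS]; positivity
  have hsum2 : ∑' q : {q : V d // |h (rv (w • q)) - r ^ 2| ≤ C₁ * w},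
      ENNReal.ofReal (Real.exp (-(l * s / 4 * tr v h (rv (w • q.1))))) ≤ ENNReal.ofReal S := by
    refine hsum1.trans (ENNReal.ofReal_le_ofReal ?_)
    rw [hS, div_le_iff₀ (by positivity), mul_assoc, ← mul_pow]
    have h1 : 1 ≤ 4 * b / s * (l * s / 4 * w) := by
      have : 4 * b / s * (l * s / 4 * w) = l * b * w := by field_simp
      rw [this]
      exact hw2
    have h2 : 1 ≤ (4 * b / s * (l * s / 4 * w)) ^ d := one_le_pow₀ h1
    nlinarith
  have hF0 : ∀ q : {q : V d // |h (rv (w • q)) - r ^ 2| ≤ C₁ * w},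
      0 ≤ Z P Y l 0 (w • q.1) * Real.exp (l * h (rv (w • q.1))) := fun q =>
    mul_nonneg (Z_pos hE 0 _).le (Real.exp_pos _).le
  have hhy : ∀ q : {q : V d // |h (rv (w • q)) - r ^ 2| ≤ C₁ * w},
      |h (rv (w • q.1))| ≤ 2 * r ^ 2 := by
    intro q
    have h1 := abs_le.1 q.2
    rw [abs_le]
    constructor
    · linarith [sq_nonneg r]
    · linarith
  have hlt : l ^ 2 * r ^ 2 ≤ 1 := by
    rw [← mul_pow, hlr, one_pow]
  have hFG : ∀ q : {q : V d // |h (rv (w • q)) - r ^ 2| ≤ C₁ * w},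
      Z P Y l 0 (w • q.1) * Real.exp (l * h (rv (w • q.1))) ≤ Real.exp (2 * D * nr v) *
        Real.exp (-(l * s / 4 * tr v h (rv (w • q.1)))) ^ 2 := fun q =>
    decay hE hl0 hV hnl (by linarith) hDl hlt _ (hhy q)
  obtain ⟨q, hq⟩ := exists_term _ _ (by linarith : (0 : ℝ) < C₁) (Real.exp_pos (2 * D * nr v)) hS0
    hF0 (fun q => (Real.exp_pos _).le) hFG hsl1 hsum2
  have hyt := q.2
  have hy2 := hhy q
  have hyd := hFG q
  obtain ⟨y, hy⟩ : ∃ y : V d, y = w • q.1 := ⟨_, rfl⟩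
  rw [← hy] at hq hyt hy2 hyd
  -- the constant `c`
  obtain ⟨c, hc⟩ : ∃ c : ℝ, c = 1 / (4 * (C₁ : ℝ) ^ 2 * Real.exp (2 * D * nr v) * S ^ 2) := ⟨_, rfl⟩
  rw [← hc] at hq
  have hc0 : 0 < c := by rw [hc]; positivity
  obtain ⟨Λ, hΛ⟩ : ∃ Λ : ℝ, Λ = M₁ * (D * b) := ⟨_, rfl⟩
  have hΛ0 : 0 ≤ Λ := by rw [hΛ]; positivity
  have hlogc : Real.log (1 / c) ≤ Λ := by
    have h1 : 1 / c = (2 * C₁ * K₁ * (4 * b / s) ^ d) ^ 2 * Real.exp (2 * D * nr v) := by
      rw [hc, hS, one_div_one_div]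
      ring
    rw [h1, Real.log_mul (by positivity) (Real.exp_pos _).ne', Real.log_exp, Real.log_pow,
      Real.log_mul (by positivity) (by positivity), Real.log_pow]
    have h2 : Real.log (2 * C₁ * K₁) ≤ 2 * C₁ * K₁ := by
      have := Real.log_le_sub_one_of_pos (x := 2 * C₁ * K₁) (by positivity)
      linarith
    have h3 : Real.log (4 * b / s) ≤ 4 * b / s := by
      have := Real.log_le_sub_one_of_pos (x := 4 * b / s) (by positivity)
      linarith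
    have h4 : (d : ℝ) * Real.log (4 * b / s) ≤ d * (4 * b / s) :=
      mul_le_mul_of_nonneg_left h3 (Nat.cast_nonneg d)
    have h5 : 2 * (2 * C₁ * K₁ + d * (4 * b / s)) + 2 * D * nr v ≤ Λ := by
      rw [hΛ, hM₁]
      have e1 : (2 * nr v + 4 * C₁ * K₁ + 8 * d / s) * (D * b) =
        2 * nr v * (D * b) + 4 * C₁ * K₁ * (D * b) + 8 * d / s * b * D := by ring
      have e2 : 2 * (2 * C₁ * K₁ + d * (4 * b / s)) + 2 * D * nr v =
        2 * nr v * D + 4 * C₁ * K₁ + 8 * d / s * b := by ring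
      rw [e1, e2]
      have f1 : D ≤ D * b := by nlinarith
      have f2 : 1 ≤ D * b := by nlinarith
      have f3 : 2 * nr v * D ≤ 2 * nr v * (D * b) := mul_le_mul_of_nonneg_left f1 (by positivity)
      have f4 : 4 * C₁ * K₁ ≤ 4 * C₁ * K₁ * (D * b) := by
        have : 0 ≤ 4 * C₁ * K₁ := by positivity
        nlinarith
      have f5 : 8 * d / s * b ≤ 8 * d / s * b * D := by
        have : 0 ≤ 8 * d / s * b := by positivity
        nlinarith
      linarith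
    push_cast
    linarith
  -- the transversal part
  obtain ⟨τ, hτ⟩ : ∃ τ : ℝ, τ = tr v h (rv y) := ⟨_, rfl⟩
  rw [← hτ] at hyd
  have hτ0 : 0 ≤ τ := by rw [hτ]; exact Pool.Agent.Helper19.PG.tr_nonneg v h _
  have hlτ : l * τ ≤ M₂ * (D * b) := by
    have h1 : c ≤ Real.exp (2 * D * nr v) * Real.exp (-(l * s / 4 * τ)) ^ 2 := hq.trans hyd
    have h2 := Real.log_le_log hc0 h1
    rw [Real.log_mul (Real.exp_pos _).ne' (by positivity), Real.log_pow, Real.log_exp,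
      Real.log_exp] at h2
    have h3 : Real.log (1 / c) = -Real.log c := by rw [one_div, Real.log_inv]
    rw [h3] at hlogc
    push_cast at h2
    have h4 : l * s / 2 * τ ≤ 2 * D * nr v + Λ := by linarith
    have h5 : l * τ ≤ (2 * D * nr v + Λ) * (2 / s) := by
      have h6 := mul_le_mul_of_nonneg_right h4 h2s
      have h7 : l * s / 2 * τ * (2 / s) = l * τ := by field_simp
      rwa [h7] at h6
    refine h5.trans ?_
    rw [hM₂, hΛ]
    have f1 : D ≤ D * b := by nlinarith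
    have f3 : 2 * nr v * D ≤ 2 * nr v * (D * b) := mul_le_mul_of_nonneg_left f1 (by positivity)
    calc (2 * D * nr v + M₁ * (D * b)) * (2 / s)
        ≤ (2 * nr v * (D * b) + M₁ * (D * b)) * (2 / s) :=
          mul_le_mul_of_nonneg_right (by linarith) h2s
      _ = _ := by ring
  have hτr : τ ≤ M₂ * (D * b) * r := by
    have h1 := mul_le_mul_of_nonneg_right hlτ hr0.le
    have h2 : l * τ * r = τ := by rw [mul_comm l τ, mul_assoc, hlr, mul_one]
    rwa [h2] at h1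
  -- the mean at `y`
  have hmy := mm_le_of_Z hE hR hb' hl0 hl1 y (h (rv y)) c hc0 hq
  have hn1y : n1 y ≤ 2 * r ^ 2 * nr v + τ := by
    have h1 := Pool.Agent.Helper19.PG.nr_le_tr v h (rv y)
    rw [Pool.Agent.Helper79.GQ.nr_rv, ← hτ] at h1
    have h2 := mul_le_mul_of_nonneg_right hy2 hv0
    linarith
  have hhr := hr_pos hR
  have hhr' : hr a ≤ |hr a| := le_abs_self _
  have hlog2 : Real.log (1 / c) / l ≤ Λ * r := by
    rw [div_le_iff₀ hl0, mul_assoc, mul_comm r l, hlr, mul_one]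
    exact hlogc
  have hhy1 : h (rv y) ≤ r ^ 2 + 2 * C₁ * r := by
    have h1 := (abs_le.1 hyt).2
    have h2 : C₁ * (w : ℝ) ≤ C₁ * (2 * r) := mul_le_mul_of_nonneg_left hwr (by linarith)
    linarith
  -- from `y` to the integer part
  have hlip := (abs_le.1 ((subM_mm hE).lip (fl 1 (r ^ 2 • v)) y)).2
  have hdist : n1 (fl 1 (r ^ 2 • v) - y) ≤ d + 2 * C₁ * r * nr v + τ := by
    rw [← Pool.Agent.Helper79.GQ.nr_rv, Pool.Agent.Helper79.GQ.rv_sub]
    have e : rv (fl 1 (r ^ 2 • v)) - rv y = (rv (fl 1 (r ^ 2 • v)) - ((1 : ℕ) : ℝ) • (r ^ 2 • v)) +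
        ((r ^ 2 - h (rv y)) • v + -(rv y - h (rv y) • v)) := by
      rw [sub_smul, Nat.cast_one, one_smul]
      abel
    rw [e]
    have h1 := Pool.Agent.Helper79.GQ.nr_add_le
      (rv (fl 1 (r ^ 2 • v)) - ((1 : ℕ) : ℝ) • (r ^ 2 • v))
      ((r ^ 2 - h (rv y)) • v + -(rv y - h (rv y) • v))
    have h2 := Pool.Agent.Helper79.GQ.nr_add_le ((r ^ 2 - h (rv y)) • v)
      (-(rv y - h (rv y) • v))
    have h3 := Pool.Agent.Helper79.GQ.nr_fl 1 (r ^ 2 • v)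
    have h4 : nr (-(rv y - h (rv y) • v)) = τ := by
      rw [Pool.Agent.Helper79.GQ.nr_neg, hτ]
      rfl
    have h5 : nr ((r ^ 2 - h (rv y)) • v) ≤ 2 * C₁ * r * nr v := by
      rw [Pool.Agent.Helper79.GQ.nr_smul, abs_sub_comm]
      refine mul_le_mul_of_nonneg_right ?_ hv0
      refine hyt.trans ?_
      have := mul_le_mul_of_nonneg_left hwr (by linarith : (0 : ℝ) ≤ C₁)
      linarith
    linarith
  -- all together
  obtain ⟨B, hB⟩ : ∃ B : ℝ, B = b ^ 4 * D * r := ⟨_, rfl⟩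
  have hr1 : 1 ≤ r := by linarith
  have hb2 : (b : ℝ) ≤ b ^ 4 := le_self_pow₀ hb' (by norm_num)
  have hb3 : (b : ℝ) ^ 3 ≤ b ^ 4 := pow_le_pow_right₀ hb' (by norm_num)
  have hb5 : (b : ℝ) ^ 2 ≤ b ^ 4 := pow_le_pow_right₀ hb' (by norm_num)
  have hb4 : (1 : ℝ) ≤ b ^ 4 := one_le_pow₀ hb'
  have hDr : 1 ≤ D * r := by nlinarith
  have hrDr : r ≤ D * r := by nlinarith
  have hDDr : D ≤ D * r := by nlinarith
  have hmono : ∀ x y : ℝ, 0 ≤ x → x ≤ b ^ 4 → 0 ≤ y → y ≤ D * r → x * y ≤ B := by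
    intro x y hx hx' hy hy'
    rw [hB, mul_assoc]
    exact mul_le_mul hx' hy' hy (by positivity)
  have g1 : r ≤ B := by
    have := hmono 1 r zero_le_one hb4 hr0.le hrDr
    linarith
  have g2 : (b : ℝ) ^ 3 * r ≤ B := hmono _ _ (by positivity) hb3 hr0.le hrDr
  have g3 : (b : ℝ) ^ 4 * D ≤ B := hmono _ _ (by positivity) le_rfl (by linarith) hDDr
  have g4 : (b : ℝ) ^ 3 * 1 ≤ B := hmono _ _ (by positivity) hb3 zero_le_one hDr
  have g5 : (b : ℝ) * (D * r) ≤ B := hmono _ _ (by positivity) hb2 (by positivity) le_rfl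
  have g6 : (b : ℝ) * 1 ≤ B := hmono _ _ (by positivity) hb2 zero_le_one hDr
  have g7 : (b : ℝ) * r ≤ B := hmono _ _ (by positivity) hb2 hr0.le hrDr
  have g8 : (b : ℝ) ^ 2 * (D * r) ≤ B := hmono _ _ (by positivity) hb5 (by positivity) le_rfl
  have k1 : hr a * b ^ 3 * l * (n1 y + 1) ≤
      |hr a| * (b ^ 3 * (2 * r * nr v)) + |hr a| * (b ^ 3 * (M₂ * (D * b))) + |hr a| * b ^ 3 := by
    have h1 : l * (n1 y + 1) ≤ 2 * r * nr v + M₂ * (D * b) + 1 := by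
      have h2 : l * (n1 y + 1) ≤ l * (2 * r ^ 2 * nr v + τ + 1) :=
        mul_le_mul_of_nonneg_left (by linarith) hl0.le
      have h3 : l * (2 * r ^ 2 * nr v + τ + 1) = (l * r) * (2 * r * nr v) + l * τ + l := by ring
      rw [h3, hlr, one_mul] at h2
      linarith
    have h4 : hr a * b ^ 3 * l * (n1 y + 1) = hr a * (b ^ 3 * (l * (n1 y + 1))) := by ring
    rw [h4]
    have h5 : 0 ≤ l * (n1 y + 1) := mul_nonneg hl0.le (by linarith [n1_nonneg y])
    calc hr a * (b ^ 3 * (l * (n1 y + 1)))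
        ≤ |hr a| * (b ^ 3 * (2 * r * nr v + M₂ * (D * b) + 1)) := by
          refine mul_le_mul hhr' (mul_le_mul_of_nonneg_left h1 (by positivity))
            (by positivity) hh0
      _ = _ := by ring
  have k2 : |hr a| * ((b : ℝ) ^ 3 * (2 * r * nr v)) ≤ 2 * |hr a| * nr v * B := by
    have e : |hr a| * ((b : ℝ) ^ 3 * (2 * r * nr v)) = 2 * |hr a| * nr v * (b ^ 3 * r) := by ring
    rw [e]
    exact mul_le_mul_of_nonneg_left g2 (by positivity)
  have k3 : |hr a| * ((b : ℝ) ^ 3 * (M₂ * (D * b))) ≤ |hr a| * M₂ * B := by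
    have e : |hr a| * ((b : ℝ) ^ 3 * (M₂ * (D * b))) = |hr a| * M₂ * (b ^ 4 * D) := by ring
    rw [e]
    exact mul_le_mul_of_nonneg_left g3 (by positivity)
  have k4 : |hr a| * (b : ℝ) ^ 3 ≤ |hr a| * B := mul_le_mul_of_nonneg_left (by linarith) hh0
  have k5 : Λ * r ≤ M₁ * B := by
    have e : Λ * r = M₁ * (b * (D * r)) := by rw [hΛ]; ring
    rw [e]
    exact mul_le_mul_of_nonneg_left g5 hM₁0
  have k6 : (b : ℝ) * n1 (fl 1 (r ^ 2 • v) - y) ≤ d * B + 2 * C₁ * nr v * B + M₂ * B := by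
    have h1 : (b : ℝ) * n1 (fl 1 (r ^ 2 • v) - y) ≤
        b * (d + 2 * C₁ * r * nr v + M₂ * (D * b) * r) :=
      mul_le_mul_of_nonneg_left (by linarith) (by linarith)
    have e : (b : ℝ) * (d + 2 * C₁ * r * nr v + M₂ * (D * b) * r) =
        d * (b * 1) + 2 * C₁ * nr v * (b * r) + M₂ * (b ^ 2 * (D * r)) := by ring
    rw [e] at h1
    have h2 : (d : ℝ) * (b * 1) ≤ d * B := mul_le_mul_of_nonneg_left g6 (Nat.cast_nonneg d)
    have h3 : 2 * C₁ * nr v * (b * r) ≤ 2 * C₁ * nr v * B :=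
      mul_le_mul_of_nonneg_left g7 (by positivity)
    have h4 : M₂ * (b ^ 2 * (D * r)) ≤ M₂ * B := mul_le_mul_of_nonneg_left g8 hM₂0
    linarith
  have k7 : 2 * C₁ * r ≤ 2 * C₁ * B := mul_le_mul_of_nonneg_left g1 (by positivity)
  have hB0 : 0 ≤ B := by linarith
  have htot : M * B = B + 2 / s * B + 4 * C₁ * B + 2 * |hr a| * nr v * B + |hr a| * M₂ * B +
      |hr a| * B + M₁ * B + d * B + 2 * C₁ * nr v * B + M₂ * B := by
    rw [hM]
    ring
  rw [← hB, htot]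
  have p1 : 0 ≤ 2 / s * B := mul_nonneg h2s hB0
  have p2 : 0 ≤ 2 * C₁ * B := by positivity
  linarith

end Pool.Agent.Helper47.GP
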