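import Pool.Agent.Helper47.GP.R0

/-!
# GP-R: the rate in the direction of a vertex, assembly
-/

set_option autoImplicit false

namespace Pool.Agent.Helper47.GP

open MeasureTheory ProbabilityTheory Filter Pool.Agent.Helper79.GR Pool.Agent.Helper79.GQ
open Pool.Agent.Helper51.NP Pool.Agent.Helper51.GP

variable {Ω : Type*} [MeasurableSpace Ω] {P : Measure Ω} {d : ℕ} {X : ℕ → Edge d → Ω → ℝ}
  {ν : ℕ → Measure ℝ} {δ : ℕ → ℝ} {a K s : ℝ} {m : ℕ} {u : F d → ℝ} {v : F d}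
  {h : F d →L[ℝ] ℝ}

theorem vtx_min (hV : Vtx u v h s) : Vtx u v h (min s 1) := by
  refine ⟨hV.hv, hV.one, lt_min hV.spos one_pos, fun x => ?_⟩
  have h1 := hV.gap x
  have h2 := mul_le_mul_of_nonneg_right (min_le_left s 1)
    (Pool.Agent.Helper19.PG.tr_nonneg v h x)
  linarith

theorem rate (hF : Fam P X ν δ a m K u) (hV : Vtx u v h s) (κ : ℕ) :
    ∃ C : ℕ, 1 ≤ C ∧ ∃ L₀ : ℕ, ∀ L : ℕ, L₀ ≤ L → ∀ t : ℝ, 0 ≤ t → t ≤ Real.exp (κ * L) →
      mm P (X (bb m L)) (fl 1 (t • v)) ≤ t + (bb m L : ℕ) ^ C * (√t + 1) := by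
  obtain ⟨M, hM, hnp⟩ := near_point (P := P) (vtx_min hV) (min_le_right s 1) a
  obtain ⟨C₀, hC₀, L₁, hsep⟩ := u_le_nl hF κ
  have hv0 : 0 ≤ nr v := Pool.Agent.Helper79.GQ.nr_nonneg v
  obtain ⟨L₂, hL₂⟩ := le_bb m (M + nr v + d + 1)
  refine ⟨C₀ + 5, by omega, max (max L₁ L₂) 1, ?_⟩
  intro L hL t ht0 htL
  have hL1 : L₁ ≤ L := (le_max_left _ _).trans ((le_max_left _ _).trans hL)
  have hL2 : L₂ ≤ L := (le_max_right _ _).trans ((le_max_left _ _).trans hL)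
  have hL3 : 1 ≤ L := (le_max_right _ _).trans hL
  obtain ⟨hb1, -, -⟩ := hL₂ L hL2
  obtain ⟨b, hb⟩ : ∃ b : ℕ, b = bb m L := ⟨_, rfl⟩
  rw [← hb] at hb1 ⊢
  have hbL : L ^ (m + 1) ≤ b := by rw [hb]; exact le_rfl
  have hd0 : (0 : ℝ) ≤ d := Nat.cast_nonneg d
  have hb2 : (1 : ℝ) ≤ b := by linarith
  have hb3 : 1 ≤ b := by exact_mod_cast hb2
  have hE := hF.env b hb3
  have hR := hF.reg b hb3
  have hMb : M ≤ b := by linarith
  have hvb : nr v ≤ b := by linarith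
  have hdb : (d : ℝ) ≤ b := by linarith
  obtain ⟨r, hr⟩ : ∃ r : ℝ, r = √t := ⟨_, rfl⟩
  have hr0 : 0 ≤ r := by rw [hr]; exact Real.sqrt_nonneg t
  have hrt : r ^ 2 = t := by rw [hr]; exact Real.sq_sqrt ht0
  rw [← hr]
  obtain ⟨D, hD⟩ : ∃ D : ℝ, D = (b : ℝ) ^ C₀ := ⟨_, rfl⟩
  have hD1 : 1 ≤ D := by rw [hD]; exact one_le_pow₀ hb2
  have hpow : (b : ℝ) ^ (C₀ + 5) = D * b * b ^ 4 := by rw [hD]; ring
  have hb4 : (1 : ℝ) ≤ b ^ 4 := one_le_pow₀ hb2
  rcases le_or_gt (D * b) r with hbig | hsmall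
  · -- large `t`
    have hr1 : 1 ≤ r := by nlinarith
    have hrpos : 0 < r := by linarith
    have hDr : D ≤ r := by nlinarith
    have hlow : Real.exp (-(κ * L)) ≤ 1 / r := by
      rw [Real.exp_neg, ← one_div]
      refine one_div_le_one_div_of_le hrpos ?_
      have h1 : r ≤ r ^ 2 := by nlinarith
      linarith
    have hlD : 1 / r * (b : ℝ) ^ C₀ ≤ 1 := by
      rw [← hD, one_div, ← div_eq_inv_mul, div_le_one hrpos]
      exact hDr
    have h1 := hsep L b hL1 hbL (1 / r) hlow hlD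
    rw [← hD] at h1
    have hbD : (b : ℝ) ≤ D := by rw [hD]; exact le_self_pow₀ hb2 (by omega)
    have hMb' : M * b ≤ r := by nlinarith
    have hMD : M * D ≤ r := by nlinarith
    have h2 := hnp (X b) (ν b) (δ b) b D r hE hR hb3 (hF.up b hb3) hD1 hMb' hMD h1
    rw [hrt] at h2
    refine h2.trans ?_
    have h3 : M * ((b : ℝ) ^ 4 * D * r) ≤ (b : ℝ) ^ (C₀ + 5) * (r + 1) := by
      rw [hpow]
      have h4 : 0 ≤ (b : ℝ) ^ 4 * D * r := by positivity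
      have h5 : M * ((b : ℝ) ^ 4 * D * r) ≤ b * ((b : ℝ) ^ 4 * D * r) :=
        mul_le_mul_of_nonneg_right hMb h4
      have h6 : 0 ≤ D * b * (b : ℝ) ^ 4 := by positivity
      nlinarith
    linarith
  · -- small `t`
    have h1 := (subM_mm hE).hi (fl 1 (t • v))
    have h2 := Pool.Agent.Helper79.GQ.n1_fl_le 1 (t • v)
    rw [Nat.cast_one, one_mul, Pool.Agent.Helper79.GQ.nr_smul, abs_of_nonneg ht0] at h2
    have h3 : (b : ℝ) * n1 (fl 1 (t • v)) ≤ b * (t * nr v + d) :=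
      mul_le_mul_of_nonneg_left h2 (by linarith)
    have h4 : t * nr v ≤ r * (D * b) * b := by
      rw [← hrt, sq]
      refine mul_le_mul (mul_le_mul_of_nonneg_left hsmall.le hr0) hvb hv0 (by positivity)
    have h5 : (b : ℝ) * (t * nr v + d) ≤ b * (r * (D * b) * b + b) :=
      mul_le_mul_of_nonneg_left (by linarith) (by linarith)
    have h6 : (b : ℝ) * (r * (D * b) * b + b) ≤ (b : ℝ) ^ (C₀ + 5) * (r + 1) := by
      rw [hpow]
      have e1 : (b : ℝ) * (r * (D * b) * b + b) = D * b * (b ^ 2 * r) + b ^ 2 := by ring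
      have e2 : D * b * (b : ℝ) ^ 4 * (r + 1) = D * b * (b ^ 4 * r) + D * b * b ^ 4 := by ring
      rw [e1, e2]
      have h7 : (b : ℝ) ^ 2 ≤ b ^ 4 := pow_le_pow_right₀ hb2 (by norm_num)
      have h8 : (b : ℝ) ^ 2 * r ≤ b ^ 4 * r := mul_le_mul_of_nonneg_right h7 hr0
      have h9 : D * b * ((b : ℝ) ^ 2 * r) ≤ D * b * (b ^ 4 * r) :=
        mul_le_mul_of_nonneg_left h8 (by positivity)
      have h10 : (b : ℝ) ^ 4 ≤ D * b * b ^ 4 := by
        have : 1 ≤ D * b := by nlinarith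
        nlinarith
      linarith
    linarith

end Pool.Agent.Helper47.GP
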